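import Pool.Agent.H95.FiveX.Final

/-!
# A lower bound for the growth exponent of eventually periodic `5x+1` orbits

`T5`, `EvPer`, `Q5` and `R1` are defined in `Pool.Agent.H95.FiveX.Tree`.
-/

open Pool.Agent.H95.FiveX

/-- There is `c > 0` such that for every real `x ≥ 1` at least `c * x ^ 0.463` integers
`1 ≤ n ≤ x` have a `5x+1` orbit that reaches `1`; in particular `Q5 x ≥ c * x ^ 0.463`, and
`liminf log (Q5 x) / log x ≥ 0.463`. -/
theorem Pool.Agent.Results.MP_d7ac36_nt.LowerExponent.result :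
    (∃ c : ℝ, 0 < c ∧ ∀ x : ℝ, 1 ≤ x →
      c * x ^ (0.463 : ℝ) ≤ R1 x ∧ c * x ^ (0.463 : ℝ) ≤ Q5 x) ∧
    (0.463 : ℝ) ≤ Filter.liminf (fun x : ℝ => Real.log (Q5 x) / Real.log x) Filter.atTop := by
  obtain ⟨c, hc, h⟩ := lower_bound
  have e : (463 / 1000 : ℝ) = 0.463 := by norm_num
  rw [e] at h
  have h2 : ∀ x : ℝ, 1 ≤ x → c * x ^ (0.463 : ℝ) ≤ Q5 x := fun x hx =>
    (h x hx).trans (by exact_mod_cast R1_le_Q5 x)
  exact ⟨⟨c, hc, fun x hx => ⟨h x hx, h2 x hx⟩⟩, liminf_of_bound ⟨c, hc, h2⟩⟩
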