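import Pool.Agent.H90.FX.MainT

/-!
# Upper bounds for the `5x+1` map under a time limit

Upper bounds for the number of `n ≤ x` which reach `y` in at most `K` steps, respectively in at most `a * log_2 x` steps.

Proof: weights on the residues `3` modulo `5`, modulo `5 ^ 9`, which are superharmonic for the backward tree (with weight
`1.158 ≥ 5 ^ (1 / 11)` for an odd step) in the worst case over the unknown digit, checked in the kernel; Markov's inequality for
the number of odd iterates, which is large if `n ≤ x` reaches `y` late.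
-/

namespace Pool.Agent.Results.MP_d7ac36_nt.TimedUpper

open Pool.Agent.H90.FX

theorem result : ∃ C : ℝ, ∀ y : ℕ, 1 ≤ y →
    (∀ x : ℝ, 0 < x → ∀ K : ℕ, ({n : ℕ | (n : ℝ) ≤ x ∧ ∃ k ≤ K, T5^[k] n = y}.ncard : ℝ) ≤
      C * min (1.2053 ^ K) ((x / y) ^ (1 / 11 : ℝ) * 1.174 ^ K)) ∧
    (∀ a : ℝ, 0 ≤ a → ∀ x : ℝ, 1 ≤ x →
      ({n : ℕ | (n : ℝ) ≤ x ∧ ∃ k : ℕ, (k : ℝ) ≤ a * Real.logb 2 x ∧ T5^[k] n = y}.ncard : ℝ) ≤
        C * x ^ min (0.27 * a) (1 / 11 + 0.2315 * a)) := timed_upper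

end Pool.Agent.Results.MP_d7ac36_nt.TimedUpper
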