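import Pool.Agent.H90.FX.MainG

/-!
# Growth of the backward tree of the `5x+1` map

The number of `n` with `T5^[k] n = y` lies between `c * 1.1972 ^ k` and `C * 1.2053 ^ k`, for all `y` prime to `5` and all `k`.

Proof: weights on the residues `3` modulo `5`, modulo `5 ^ 9`, which are sub- resp. superharmonic for the backward tree in the
worst case over the unknown digit, checked in the kernel.
-/

namespace Pool.Agent.Results.MP_d7ac36_nt.TreeGrowth

open Pool.Agent.H90.FX

theorem result : ∃ c C : ℝ, 0 < c ∧ ∀ y : ℕ, ¬ 5 ∣ y → ∀ k : ℕ,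
    c * 1.1972 ^ k ≤ ({n : ℕ | T5^[k] n = y}.ncard : ℝ) ∧
    ({n : ℕ | T5^[k] n = y}.ncard : ℝ) ≤ C * 1.2053 ^ k := growth

end Pool.Agent.Results.MP_d7ac36_nt.TreeGrowth
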